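import Mathlib

/-!
# MP_a76361_lc: every covering polyhedron has an `O(log d)`-approximate portfolio of size `d^o(1)`

For all `c, δ > 0` and all sufficiently large `d`, every nonempty covering polyhedron in dimension
`d`, with any number of constraints, has a `(c log d)`-approximate portfolio for the symmetric
monotonic norms with fewer than `d^δ` points.
-/

namespace Pool.Agent.Results.MP_a76361_lc.SmallPortfolios

open Finset

/-- The covering polyhedron given by `A` and `b`. -/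
def coveringPolyhedron {d r : ℕ} (A : Matrix (Fin r) (Fin d) ℝ) (b : Fin r → ℝ) :
    Set (Fin d → ℝ) :=
  {x | (∀ i, 0 ≤ x i) ∧ ∀ k, b k ≤ ∑ i, A k i * x i}

/-- Symmetric monotonic norms on `ℝ^d`. -/
structure IsSymMonNorm {d : ℕ} (f : (Fin d → ℝ) → ℝ) : Prop where
  nonneg : ∀ x, 0 ≤ f x
  eq_zero : ∀ x, f x = 0 → x = 0
  smul : ∀ (a : ℝ) (x : Fin d → ℝ), f (a • x) = |a| * f x
  add_le : ∀ x y, f (x + y) ≤ f x + f y
  perm : ∀ (σ : Equiv.Perm (Fin d)) (x : Fin d → ℝ), f (x ∘ σ) = f x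
  mono : ∀ x y : Fin d → ℝ, (∀ i, 0 ≤ x i) → (∀ i, x i ≤ y i) → f x ≤ f y

/-- `X` is an `α`-approximate portfolio for `P`. -/
def IsPortfolio {d : ℕ} (α : ℝ) (P : Set (Fin d → ℝ)) (X : Finset (Fin d → ℝ)) : Prop :=
  (X : Set (Fin d → ℝ)) ⊆ P ∧
    ∀ f : (Fin d → ℝ) → ℝ, IsSymMonNorm f → ∃ x ∈ X, ∀ y ∈ P, f x ≤ α * f y

/-! ### Basic facts on norms -/

lemma IsSymMonNorm.sum_le {d : ℕ} {f : (Fin d → ℝ) → ℝ} (hf : IsSymMonNorm f) {ι : Type*}
    (s : Finset ι) (g : ι → Fin d → ℝ) : f (∑ i ∈ s, g i) ≤ ∑ i ∈ s, f (g i) := by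
  classical
  induction s using Finset.induction_on with
  | empty =>
    have h0 : f 0 = 0 := by simpa using hf.smul 0 0
    simp [h0]
  | insert a s ha ih =>
    rw [Finset.sum_insert ha, Finset.sum_insert ha]
    exact le_trans (hf.add_le _ _) (by linarith)

lemma single_perm {d : ℕ} {f : (Fin d → ℝ) → ℝ} (hf : IsSymMonNorm f) (i j : Fin d) (a : ℝ) :
    f (Pi.single i a) = f (Pi.single j a) := by
  have : (Pi.single i a : Fin d → ℝ) = (Pi.single j a) ∘ (Equiv.swap i j) := by
    funext k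
    simp only [Function.comp]
    by_cases hk : k = i
    · subst hk; simp
    · by_cases hk2 : k = j
      · subst hk2
        rw [Equiv.swap_apply_right, Pi.single_eq_of_ne hk, Pi.single_eq_of_ne (Ne.symm hk)]
      · rw [Equiv.swap_apply_of_ne_of_ne hk hk2, Pi.single_eq_of_ne hk, Pi.single_eq_of_ne hk2]
  rw [this, hf.perm]

/-- If some coordinate of `y` is at least `d * t`, the constant vector `t` has norm at most that of
`y`. -/
lemma const_le {d : ℕ} {f : (Fin d → ℝ) → ℝ} (hf : IsSymMonNorm f) (t : ℝ) (ht : 0 ≤ t)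
    (y : Fin d → ℝ) (hy : ∀ i, 0 ≤ y i) (i₀ : Fin d) (hi₀ : d * t ≤ y i₀) :
    f (fun _ => t) ≤ f y := by
  have h1 : (fun _ : Fin d => t) = ∑ i : Fin d, Pi.single i t := by
    funext k
    rw [Finset.sum_apply]
    simp [Pi.single_apply]
  calc f (fun _ => t) ≤ ∑ i : Fin d, f (Pi.single i t) := by
        rw [h1]; exact hf.sum_le _ _
    _ = ∑ i : Fin d, f (Pi.single i₀ t) := Finset.sum_congr rfl fun i _ => single_perm hf i i₀ t
    _ = d * f (Pi.single i₀ t) := by simp
    _ = f ((d : ℝ) • (Pi.single i₀ t)) := by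
        rw [hf.smul, abs_of_nonneg (Nat.cast_nonneg d)]
    _ ≤ f y := by
        refine hf.mono _ _ (fun i => ?_) (fun i => ?_)
        · by_cases hi : i = i₀
          · subst hi; simp; positivity
          · simp [Pi.single_eq_of_ne hi]
        · by_cases hi : i = i₀
          · subst hi; simpa using hi₀
          · simp [Pi.single_eq_of_ne hi, hy]

lemma exists_perm {α : Type*} [Fintype α] (φ : α → α) (p : α → Prop)
    (h : ∀ a b, p a → p b → φ a = φ b → a = b) :
    ∃ π : Equiv.Perm α, ∀ a, p a → π a = φ a := by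
  classical
  let e : {a // p a} ≃ {b // ∃ a, p a ∧ φ a = b} := Equiv.ofBijective
    (fun a => ⟨φ a.1, a.1, a.2, rfl⟩) (by
      constructor
      · intro a b hab
        simp only [Subtype.mk.injEq] at hab
        exact Subtype.ext (h _ _ a.2 b.2 hab)
      · rintro ⟨b, a, ha, hb⟩
        exact ⟨⟨a, ha⟩, by simpa using hb⟩)
  exact ⟨e.extendSubtype, fun a ha => by rw [Equiv.extendSubtype_apply_of_mem e a ha]; rfl⟩

/-- The main comparison. -/
lemma compare {d Q : ℕ} (hQ : 1 ≤ Q) {f : (Fin d → ℝ) → ℝ} (hf : IsSymMonNorm f)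
    (u v : Fin d → ℝ) (hu : ∀ i, 0 ≤ u i) (hv : ∀ i, 0 ≤ v i) (t : ℝ) (ht : 0 ≤ t)
    (i₀ : Fin d) (hi₀ : d * t ≤ v i₀)
    (huv : ∀ k : Fin d, u k ≤ Q * (v ⟨k / Q, lt_of_le_of_lt (Nat.div_le_self _ _) k.2⟩ + t)) :
    f u ≤ ((Q : ℝ) ^ 2 + Q) * f v := by
  classical
  let φ : Fin d → Fin d := fun k => ⟨k / Q, lt_of_le_of_lt (Nat.div_le_self _ _) k.2⟩
  let w : ℕ → Fin d → ℝ := fun s k => if (k : ℕ) % Q = s then v (φ k) else 0
  have hw0 : ∀ s k, 0 ≤ w s k := by
    intro s k; simp only [w]; split_ifs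
    · exact hv _
    · exact le_rfl
  have hw : ∀ s, f (w s) ≤ f v := by
    intro s
    obtain ⟨π, hπ⟩ := exists_perm φ (fun k : Fin d => (k : ℕ) % Q = s) (by
      intro a b ha hb hab
      simp only [φ, Fin.mk.injEq] at hab
      apply Fin.ext
      rw [← Nat.div_add_mod a Q, ← Nat.div_add_mod b Q, hab, ha, hb])
    rw [← hf.perm π v]
    refine hf.mono _ _ (hw0 s) fun k => ?_
    simp only [w, Function.comp]
    split_ifs with h
    · rw [hπ k h]
    · exact hv _
  have hsum : ∀ k, u k ≤ ((Q : ℝ) • (∑ s ∈ range Q, w s + fun _ : Fin d => t) :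
      Fin d → ℝ) k := by
    intro k
    refine le_trans (huv k) ?_
    simp only [Pi.smul_apply, Pi.add_apply, smul_eq_mul, Finset.sum_apply]
    refine mul_le_mul_of_nonneg_left ?_ (Nat.cast_nonneg _)
    have : v (φ k) ≤ ∑ s ∈ range Q, w s k := by
      calc v (φ k) = w ((k : ℕ) % Q) k := by simp [w]
        _ ≤ _ := Finset.single_le_sum (f := fun s => w s k) (fun s _ => hw0 s k)
            (Finset.mem_range.2 (Nat.mod_lt _ hQ))
    simp only [φ] at this
    linarith
  calc f u ≤ f ((Q : ℝ) • (∑ s ∈ range Q, w s + fun _ => t)) := hf.mono _ _ hu hsum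
    _ = Q * f (∑ s ∈ range Q, w s + fun _ => t) := by
        rw [hf.smul, abs_of_nonneg (Nat.cast_nonneg Q)]
    _ ≤ Q * (∑ s ∈ range Q, f v + f v) := by
        refine mul_le_mul_of_nonneg_left ?_ (Nat.cast_nonneg _)
        refine le_trans (hf.add_le _ _) (add_le_add ?_ (const_le hf t ht v hv i₀ hi₀))
        exact le_trans (hf.sum_le _ _) (Finset.sum_le_sum fun s _ => hw s)
    _ = ((Q : ℝ) ^ 2 + Q) * f v := by simp; ring

/-! ### Sorting and types -/

/-- The coordinates in non-increasing order. -/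
noncomputable def decr {d : ℕ} (x : Fin d → ℝ) : Fin d → ℝ := x ∘ Tuple.sort (fun i => -x i)

lemma decr_antitone {d : ℕ} (x : Fin d → ℝ) : Antitone (decr x) := by
  intro i j hij
  have := Tuple.monotone_sort (fun i => -x i) hij
  simp only [Function.comp] at this
  simp only [decr, Function.comp]
  linarith

/-- Extension of the sorted vector by zero to all natural numbers. -/
noncomputable def ext {d : ℕ} (x : Fin d → ℝ) (p : ℕ) : ℝ :=
  if h : p < d then decr x ⟨p, h⟩ else 0

lemma ext_antitone {d : ℕ} (x : Fin d → ℝ) (hx : ∀ i, 0 ≤ x i) : Antitone (ext x) := by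
  intro p p' hp
  unfold ext
  by_cases h' : p' < d
  · rw [dif_pos h', dif_pos (lt_of_le_of_lt hp h')]
    exact decr_antitone x hp
  · rw [dif_neg h']
    split_ifs
    · exact hx _
    · exact le_rfl

/-- The level of a real number. -/
noncomputable def level (Q : ℕ) (t s : ℝ) : ℕ := Nat.log Q ⌊s / t⌋₊

lemma level_mono (Q : ℕ) {t : ℝ} (ht : 0 < t) {s s' : ℝ} (h : s ≤ s') :
    level Q t s ≤ level Q t s' := by
  unfold level
  exact Nat.log_mono_right (Nat.floor_mono (div_le_div_of_nonneg_right h ht.le))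

lemma le_of_level {Q : ℕ} (hQ : 2 ≤ Q) {t : ℝ} (ht : 0 < t) {s s' : ℝ} (hs' : 0 ≤ s')
    (h : level Q t s = level Q t s') : s ≤ Q * (s' + t) := by
  have hQ0 : (0 : ℝ) < Q := by exact_mod_cast (by omega : 0 < Q)
  unfold level at h
  have h1 : s / t < (Q : ℝ) ^ (Nat.log Q ⌊s / t⌋₊ + 1) := by
    have := Nat.lt_pow_succ_log_self (by omega : 1 < Q) ⌊s / t⌋₊
    have h2 := (Nat.floor_lt' (by positivity)).1 this
    exact_mod_cast h2
  by_cases h0 : Nat.log Q ⌊s / t⌋₊ = 0
  · rw [h0] at h1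
    rw [div_lt_iff₀ ht] at h1
    simp only [zero_add, pow_one] at h1
    nlinarith
  · have hne : ⌊s' / t⌋₊ ≠ 0 := by
      intro hcon
      rw [h, hcon] at h0
      simp at h0
    have h3 := Nat.pow_log_le_self Q hne
    have h4 : ((Q : ℝ) ^ (Nat.log Q ⌊s' / t⌋₊)) ≤ s' / t := by
      refine le_trans ?_ (Nat.floor_le (by positivity))
      exact_mod_cast h3
    rw [← h] at h4
    have h5 : s / t < Q * (s' / t) := by
      calc s / t < (Q : ℝ) ^ (Nat.log Q ⌊s / t⌋₊ + 1) := h1
        _ = Q * (Q : ℝ) ^ (Nat.log Q ⌊s / t⌋₊) := by ring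
        _ ≤ Q * (s' / t) := mul_le_mul_of_nonneg_left h4 hQ0.le
    rw [← mul_div_assoc, div_lt_div_iff_of_pos_right ht] at h5
    nlinarith

/-- The sampled positions `0, 1, Q, Q², …`. -/
def pos (Q : ℕ) : ℕ → ℕ
  | 0 => 0
  | i + 1 => Q ^ i

lemma pos_mono {Q : ℕ} (hQ : 1 ≤ Q) : Monotone (pos Q) := by
  refine monotone_nat_of_le_succ fun n => ?_
  cases n with
  | zero => simp [pos]
  | succ n => exact Nat.pow_le_pow_right hQ (Nat.le_succ n)

/-- Type of a point: the levels at the sampled positions, coded as a finite set. -/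
noncomputable def code (Q R : ℕ) (t : ℝ) {d : ℕ} (x : Fin d → ℝ) (i : Fin (R + 1)) : ℕ :=
  level Q t (ext x (pos Q (R - i))) + i

lemma code_strictMono {Q R : ℕ} (hQ : 1 ≤ Q) {t : ℝ} (ht : 0 < t) {d : ℕ} (x : Fin d → ℝ)
    (hx : ∀ i, 0 ≤ x i) : StrictMono (code Q R t x) := by
  intro i j hij
  unfold code
  have h1 : level Q t (ext x (pos Q (R - i))) ≤ level Q t (ext x (pos Q (R - j))) := by
    refine level_mono Q ht (ext_antitone x hx (pos_mono hQ ?_))
    have : (i : ℕ) < j := hij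
    omega
  have : (i : ℕ) < j := hij
  omega

/-- Points with the same code compare well. -/
lemma same_code {d Q R : ℕ} (hQ : 2 ≤ Q) (hR : d ≤ Q ^ R) {t : ℝ} (ht : 0 < t)
    (x y : Fin d → ℝ) (hx : ∀ i, 0 ≤ x i) (hy : ∀ i, 0 ≤ y i) (i₀ : Fin d) (hi₀ : d * t ≤ y i₀)
    (hc : Set.range (code Q R t x) = Set.range (code Q R t y)) {f : (Fin d → ℝ) → ℝ}
    (hf : IsSymMonNorm f) : f x ≤ ((Q : ℝ) ^ 2 + Q) * f y := by
  have hcode := ((code_strictMono (by omega) ht x hx).range_inj
    (code_strictMono (by omega) ht y hy)).1 hc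
  have hlev : ∀ i, i ≤ R → level Q t (ext x (pos Q i)) = level Q t (ext y (pos Q i)) := by
    intro i hi
    have := congrFun hcode ⟨R - i, by omega⟩
    simp only [code, Nat.sub_sub_self hi] at this
    omega
  have hexty : ∀ p, 0 ≤ ext y p := by
    intro p; unfold ext; split_ifs
    · exact hy _
    · exact le_rfl
  have hx' : f x = f (decr x) := by unfold decr; rw [hf.perm]
  have hy' : f y = f (decr y) := by unfold decr; rw [hf.perm]
  rw [hx', hy']
  refine compare (by omega) hf (decr x) (decr y) (fun i => hx _) (fun i => hy _) t ht.le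
    ((Tuple.sort (fun i => -y i)).symm i₀) (by simpa [decr] using hi₀) fun k => ?_
  -- locate the block of `k`
  have hkx : decr x k = ext x k := by unfold ext; rw [dif_pos k.2]
  have hky : decr y ⟨k / Q, lt_of_le_of_lt (Nat.div_le_self _ _) k.2⟩ = ext y ((k : ℕ) / Q) := by
    unfold ext; rw [dif_pos (lt_of_le_of_lt (Nat.div_le_self _ _) k.2)]
  rw [hkx, hky]
  by_cases hk0 : (k : ℕ) = 0
  · rw [hk0, Nat.zero_div]
    have := hlev 0 (Nat.zero_le _)
    exact le_of_level hQ ht (hexty _) (by simpa [pos] using this)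
  · set i := Nat.log Q (k : ℕ) with hi
    have h1 : Q ^ i ≤ (k : ℕ) := Nat.pow_log_le_self Q hk0
    have h2 : (k : ℕ) < Q ^ (i + 1) := Nat.lt_pow_succ_log_self (by omega) _
    have hiR : i + 1 ≤ R := by
      by_contra hcon
      have : Q ^ R ≤ Q ^ i := Nat.pow_le_pow_right (by omega) (by omega)
      have := k.2
      omega
    have h3 := hlev (i + 1) hiR
    have h4 : (k : ℕ) / Q ≤ Q ^ i := by
      have : (k : ℕ) / Q < Q ^ i := by
        rw [Nat.div_lt_iff_lt_mul (by omega)]
        rwa [← pow_succ]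
      exact this.le
    calc ext x k ≤ ext x (Q ^ i) := ext_antitone x hx h1
      _ ≤ Q * (ext y (Q ^ i) + t) := le_of_level hQ ht (hexty _) (by simpa [pos] using h3)
      _ ≤ Q * (ext y ((k : ℕ) / Q) + t) := by
          have := ext_antitone y hy h4
          gcongr


/-! ### The portfolio -/

/-- Every nonempty closed subset of the nonnegative orthant has a `Q² + Q`-approximate portfolio
of size at most `2 ^ N + 1`. -/
lemma closed_portfolio {d Q R N : ℕ} (hd : 1 ≤ d) (hQ : 2 ≤ Q) (hR : d ≤ Q ^ R)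
    (hN : Nat.log Q (d ^ 2) + R + 1 ≤ N) (P : Set (Fin d → ℝ)) (hP : P.Nonempty)
    (hcl : IsClosed P) (hpos : ∀ x ∈ P, ∀ i, 0 ≤ x i) :
    ∃ X : Finset (Fin d → ℝ), IsPortfolio ((Q : ℝ) ^ 2 + Q) P X ∧ X.card ≤ 2 ^ N + 1 := by
  classical
  have hQ2 : (1 : ℝ) ≤ (Q : ℝ) ^ 2 + Q := by
    have : (2 : ℝ) ≤ Q := by exact_mod_cast hQ
    nlinarith
  obtain ⟨z, hzP, hz⟩ := hcl.exists_infDist_eq_dist hP 0
  have hzmin : ∀ y ∈ P, ‖z‖ ≤ ‖y‖ := by
    intro y hy
    have h1 := Metric.infDist_le_dist_of_mem hy (x := (0 : Fin d → ℝ))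
    rw [hz] at h1
    simpa [dist_eq_norm] using h1
  have : Nonempty (Fin d) := ⟨⟨0, hd⟩⟩
  have hd0 : (0 : ℝ) < d := by exact_mod_cast hd
  set ζ := ‖z‖ with hζ
  by_cases hζ0 : ζ = 0
  · -- the origin belongs to `P`
    refine ⟨{z}, ⟨by simpa using hzP, fun f hf => ⟨z, by simp, fun y hy => ?_⟩⟩, by simp⟩
    have hz0 : z = 0 := by rwa [hζ, norm_eq_zero] at hζ0
    have h0 : f 0 = 0 := by simpa using hf.smul 0 0
    rw [hz0, h0]
    exact mul_nonneg (by positivity) (hf.nonneg _)
  have hζpos : 0 < ζ := lt_of_le_of_ne (norm_nonneg _) (Ne.symm hζ0)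
  set t := ζ / d with ht
  have htpos : 0 < t := by positivity
  have hdt : d * t = ζ := by rw [ht]; field_simp
  -- every point has a large coordinate
  have hbig : ∀ y ∈ P, ∃ i₀, ζ ≤ y i₀ := by
    intro y hy
    by_contra hcon
    push Not at hcon
    have : ‖y‖ < ζ := (pi_norm_lt_iff hζpos).2 fun i => by
      rw [Real.norm_eq_abs, abs_of_nonneg (hpos y hy i)]; exact hcon i
    exact absurd (hzmin y hy) (not_le.2 this)
  have hzle : ∀ i, z i ≤ ζ := fun i => le_trans (le_abs_self _) (norm_le_pi_norm z i)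
  -- representatives
  let good : (Fin d → ℝ) → Prop := fun y => y ∈ P ∧ ∀ i, y i ≤ d * ζ
  let rep : Finset ℕ → (Fin d → ℝ) := fun S =>
    if h : ∃ y, good y ∧ Set.range (code Q R t y) = (S : Set ℕ) then h.choose else z
  have hrep : ∀ S, rep S ∈ P := by
    intro S
    simp only [rep]
    split_ifs with h
    · exact h.choose_spec.1.1
    · exact hzP
  let X : Finset (Fin d → ℝ) := insert z ((range N).powerset.image rep)
  have hXP : (X : Set (Fin d → ℝ)) ⊆ P := by
    intro x hx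
    rcases Finset.mem_insert.1 (Finset.mem_coe.1 hx) with rfl | hx
    · exact hzP
    · obtain ⟨S, -, rfl⟩ := Finset.mem_image.1 hx
      exact hrep S
  have hcard : X.card ≤ 2 ^ N + 1 := by
    refine le_trans (Finset.card_insert_le _ _) ?_
    refine Nat.add_le_add_right (le_trans Finset.card_image_le ?_) 1
    rw [Finset.card_powerset, Finset.card_range]
  have hcomp : ∀ f : (Fin d → ℝ) → ℝ, IsSymMonNorm f → ∀ y ∈ P, ∃ x ∈ X,
      f x ≤ ((Q : ℝ) ^ 2 + Q) * f y := by
    intro f hf y hy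
    by_cases hgood : ∀ i, y i ≤ d * ζ
    · -- use the representative of the type of `y`
      let S : Finset ℕ := univ.image (code Q R t y)
      have hS : (S : Set ℕ) = Set.range (code Q R t y) := by simp [S]
      have hex : ∃ y', good y' ∧ Set.range (code Q R t y') = (S : Set ℕ) := ⟨y, ⟨hy, hgood⟩, hS.symm⟩
      have hSN : S ∈ (range N).powerset := by
        rw [Finset.mem_powerset]
        intro m hm
        obtain ⟨i, -, rfl⟩ := Finset.mem_image.1 hm
        rw [Finset.mem_range]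
        have hext : ext y (pos Q (R - i)) / t ≤ ((d ^ 2 : ℕ) : ℝ) := by
          rw [div_le_iff₀ htpos]
          have h1 : ext y (pos Q (R - i)) ≤ d * ζ := by
            unfold ext
            split_ifs
            · exact hgood _
            · positivity
          have h2 : ((d ^ 2 : ℕ) : ℝ) * t = d * ζ := by
            push_cast
            rw [sq, mul_assoc, hdt]
          rw [h2]; exact h1
        have hlev : level Q t (ext y (pos Q (R - i))) ≤ Nat.log Q (d ^ 2) := by
          unfold level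
          refine Nat.log_mono_right ?_
          have := Nat.floor_mono hext
          rwa [Nat.floor_natCast] at this
        have := i.2
        unfold code
        omega
      refine ⟨rep S, Finset.mem_insert_of_mem (Finset.mem_image_of_mem _ hSN), ?_⟩
      have hspec := hex.choose_spec
      have hrepS : rep S = hex.choose := by simp only [rep]; rw [dif_pos hex]
      rw [hrepS]
      obtain ⟨i₀, hi₀⟩ := hbig y hy
      exact same_code hQ hR htpos _ y (hpos _ hspec.1.1) (hpos y hy) i₀ (by rw [hdt]; exact hi₀)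
        (by rw [hspec.2, hS]) hf
    · push Not at hgood
      obtain ⟨i₀, hi₀⟩ := hgood
      refine ⟨z, Finset.mem_insert_self _ _, ?_⟩
      calc f z ≤ f (fun _ => ζ) := hf.mono _ _ (hpos z hzP) hzle
        _ ≤ f y := const_le hf ζ hζpos.le y (hpos y hy) i₀ hi₀.le
        _ ≤ ((Q : ℝ) ^ 2 + Q) * f y := by
            have := hf.nonneg y
            nlinarith
  refine ⟨X, ⟨hXP, fun f hf => ?_⟩, hcard⟩
  obtain ⟨x, hxX, hx⟩ := Finset.exists_min_image X f ⟨z, Finset.mem_insert_self _ _⟩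
  refine ⟨x, hxX, fun y hy => ?_⟩
  obtain ⟨x', hx'X, hx'⟩ := hcomp f hf y hy
  exact le_trans (hx x' hx'X) hx'

lemma isClosed_coveringPolyhedron {d r : ℕ} (A : Matrix (Fin r) (Fin d) ℝ) (b : Fin r → ℝ) :
    IsClosed (coveringPolyhedron A b) := by
  have : coveringPolyhedron A b = (⋂ i, {x : Fin d → ℝ | 0 ≤ x i}) ∩
      ⋂ k, {x : Fin d → ℝ | b k ≤ ∑ i, A k i * x i} := by
    ext x; simp [coveringPolyhedron]
  rw [this]
  refine IsClosed.inter (isClosed_iInter fun i => ?_) (isClosed_iInter fun k => ?_)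
  · exact isClosed_le continuous_const (continuous_apply i)
  · exact isClosed_le continuous_const (by fun_prop)

/-- **Small portfolios.** For all `c, δ > 0` and all sufficiently large `d`, every nonempty
covering polyhedron in `ℝ^d` (with any number `r` of constraints) has a `(c log d)`-approximate
portfolio for the symmetric monotonic norms with fewer than `d ^ δ` points. -/
theorem result (c : ℝ) (hc : 0 < c) (δ : ℝ) (hδ : 0 < δ) :
    ∃ d₀ : ℕ, ∀ d : ℕ, d₀ ≤ d → ∀ (r : ℕ) (A : Matrix (Fin r) (Fin d) ℝ) (b : Fin r → ℝ),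
      (∀ k i, 0 ≤ A k i) → (∀ k, 0 ≤ b k) → (coveringPolyhedron A b).Nonempty →
      ∃ X : Finset (Fin d → ℝ), IsPortfolio (c * Real.log d) (coveringPolyhedron A b) X ∧
        (X.card : ℝ) < (d : ℝ) ^ δ := by
  have hlogtop : Filter.Tendsto (fun d : ℕ => Real.log (d : ℝ)) Filter.atTop Filter.atTop :=
    Real.tendsto_log_atTop.comp tendsto_natCast_atTop_atTop
  obtain ⟨d₀, hd₀⟩ := Filter.eventually_atTop.1
    ((Filter.eventually_ge_atTop 2).and
      ((hlogtop.eventually_ge_atTop (2 / c * (max 2 (Real.exp (6 / δ)) + 1) ^ 2)).and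
        (hlogtop.eventually_ge_atTop (6 / δ))))
  refine ⟨d₀, fun d hd r A b _ _ hne => ?_⟩
  obtain ⟨hd2, hd3, hd4⟩ := hd₀ d hd
  set m : ℝ := max 2 (Real.exp (6 / δ)) with hm
  have hm2 : 2 ≤ m := le_max_left _ _
  have hme : Real.exp (6 / δ) ≤ m := le_max_right _ _
  set Q : ℕ := ⌊Real.sqrt (c * Real.log d / 2)⌋₊ with hQdef
  have hL : (m + 1) ^ 2 ≤ c * Real.log d / 2 := by
    have : 2 / c * (m + 1) ^ 2 ≤ Real.log d := hd3
    rw [div_mul_eq_mul_div, div_le_iff₀ hc] at this
    linarith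
  have hsq : m + 1 ≤ Real.sqrt (c * Real.log d / 2) := by
    rw [← Real.sqrt_sq (by linarith : 0 ≤ m + 1)]
    exact Real.sqrt_le_sqrt hL
  have hmQ : m ≤ Q := by
    have := Nat.lt_floor_add_one (Real.sqrt (c * Real.log d / 2))
    rw [← hQdef] at this
    linarith
  have hQ2 : 2 ≤ Q := by
    have : (2 : ℝ) ≤ Q := le_trans hm2 hmQ
    exact_mod_cast this
  have hQ2' : (2 : ℝ) ≤ Q := by exact_mod_cast hQ2
  have hlogpos : 0 ≤ c * Real.log d / 2 := le_trans (by positivity) hL
  have hQsq : (Q : ℝ) ^ 2 + Q ≤ c * Real.log d := by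
    have h1 : (Q : ℝ) ≤ Real.sqrt (c * Real.log d / 2) := Nat.floor_le (Real.sqrt_nonneg _)
    have h2 : (Q : ℝ) ^ 2 ≤ c * Real.log d / 2 := by
      calc (Q : ℝ) ^ 2 ≤ Real.sqrt (c * Real.log d / 2) ^ 2 := by gcongr
        _ = _ := Real.sq_sqrt hlogpos
    nlinarith
  have hlogQ : 6 / δ ≤ Real.log Q := by
    rw [Real.le_log_iff_exp_le (by linarith)]
    exact le_trans hme hmQ
  have h6δ : 0 < 6 / δ := by positivity
  have hlogQpos : 0 < Real.log Q := lt_of_lt_of_le h6δ hlogQ
  have hlogd : 0 < Real.log d := lt_of_lt_of_le h6δ hd4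
  set R : ℕ := Nat.log Q d + 1 with hRdef
  have hR : d ≤ Q ^ R := (Nat.lt_pow_succ_log_self (by omega) d).le
  set N : ℕ := Nat.log Q (d ^ 2) + R + 1 with hNdef
  obtain ⟨X, hX, hXcard⟩ := closed_portfolio (by omega : 1 ≤ d) hQ2 hR (le_refl N)
    (coveringPolyhedron A b) hne (isClosed_coveringPolyhedron A b) (fun x hx => hx.1)
  refine ⟨X, ⟨hX.1, fun f hf => ?_⟩, ?_⟩
  · obtain ⟨x, hxX, hx⟩ := hX.2 f hf
    refine ⟨x, hxX, fun y hy => le_trans (hx y hy) ?_⟩
    exact mul_le_mul_of_nonneg_right hQsq (hf.nonneg y)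
  · -- the counting estimate
    have hlogle : ∀ n : ℕ, n ≠ 0 → (Nat.log Q n : ℝ) ≤ Real.log n / Real.log Q := by
      intro n hn
      rw [le_div_iff₀ hlogQpos, ← Real.log_pow]
      refine Real.log_le_log (by positivity) ?_
      exact_mod_cast Nat.pow_log_le_self Q hn
    have hNle : (N : ℝ) ≤ 3 * (Real.log d / Real.log Q) + 2 := by
      have h1 := hlogle (d ^ 2) (by positivity)
      have h2 := hlogle d (by omega)
      have h3 : Real.log ((d ^ 2 : ℕ) : ℝ) = 2 * Real.log d := by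
        push_cast; rw [Real.log_pow]; norm_num
      rw [h3, mul_div_assoc] at h1
      have h4 : (N : ℝ) = Nat.log Q (d ^ 2) + Nat.log Q d + 2 := by
        rw [hNdef, hRdef]; push_cast; ring
      linarith
    have hlog2 : Real.log 2 < 1 := by
      have := Real.log_two_lt_d9
      linarith
    have hlog2pos : 0 < Real.log 2 := Real.log_pos (by norm_num)
    have hkey : ((N : ℝ) + 1) * Real.log 2 < δ * Real.log d := by
      have h1 : Real.log d / Real.log Q ≤ Real.log d * (δ / 6) := by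
        rw [div_le_iff₀ hlogQpos]
        have : 1 ≤ δ / 6 * Real.log Q := by
          calc (1 : ℝ) = δ / 6 * (6 / δ) := by field_simp
            _ ≤ δ / 6 * Real.log Q := mul_le_mul_of_nonneg_left hlogQ (by positivity)
        nlinarith
      have h2 : (3 : ℝ) ≤ δ / 2 * Real.log d := by
        calc (3 : ℝ) = δ / 2 * (6 / δ) := by field_simp; norm_num
          _ ≤ δ / 2 * Real.log d := mul_le_mul_of_nonneg_left hd4 (by positivity)
      have h3 : (N : ℝ) + 1 ≤ δ * Real.log d := by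
        have := hNle
        nlinarith
      have h4 : 0 < (N : ℝ) + 1 := by positivity
      calc ((N : ℝ) + 1) * Real.log 2 < ((N : ℝ) + 1) * 1 := mul_lt_mul_of_pos_left hlog2 h4
        _ ≤ δ * Real.log d := by linarith
    have hd0 : (0 : ℝ) < d := by exact_mod_cast (by omega : 0 < d)
    calc (X.card : ℝ) ≤ 2 ^ N + 1 := by exact_mod_cast hXcard
      _ ≤ 2 ^ N + 2 ^ N := by
          have : (1 : ℝ) ≤ 2 ^ N := one_le_pow₀ (by norm_num)
          linarith
      _ = Real.exp (((N : ℝ) + 1) * Real.log 2) := by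
          rw [mul_comm, Real.exp_mul, Real.exp_log (by norm_num)]
          rw [show ((N : ℝ) + 1) = ((N + 1 : ℕ) : ℝ) by push_cast; ring, Real.rpow_natCast]
          ring
      _ < Real.exp (δ * Real.log d) := Real.exp_lt_exp.2 hkey
      _ = (d : ℝ) ^ δ := by rw [Real.rpow_def_of_pos hd0, mul_comm]

end Pool.Agent.Results.MP_a76361_lc.SmallPortfolios
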